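import Mathlib

/-!
# MP_70096d_gt: the Scott topology of a product of two Scott well-filtered dcpos is well-filtered
-/

set_option autoImplicit false

open Set Topology

universe u v

namespace Pool.Agent.Results.MP_70096d_gt.ScottProduct

/-- A `T₀` space is well-filtered if, for every (nonempty) filtered family of compact saturated
sets and every open set `U` containing the intersection of the family, some member of the family is
contained in `U`. A set is saturated if it is an intersection of open sets. -/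
def WellFiltered (X : Type u) [TopologicalSpace X] : Prop :=
  T0Space X ∧ ∀ 𝒦 : Set (Set X), 𝒦.Nonempty → DirectedOn (· ⊇ ·) 𝒦 →
    (∀ K ∈ 𝒦, IsCompact K ∧ ∃ 𝒰 : Set (Set X), (∀ U ∈ 𝒰, IsOpen U) ∧ K = ⋂₀ 𝒰) →
    ∀ U : Set X, IsOpen U → ⋂₀ 𝒦 ⊆ U → ∃ K ∈ 𝒦, K ⊆ U

/-- filtered intersections of closed sets meeting a compact set -/
theorem compact_filtered {X : Type u} [TopologicalSpace X] {K : Set X} (hK : IsCompact K) {c : Set (Set X)}
    (hc : c.Nonempty) (hcl : ∀ C ∈ c, IsClosed C) (hdir : DirectedOn (· ⊇ ·) c)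
    (hne : ∀ C ∈ c, (K ∩ C).Nonempty) : (K ∩ ⋂₀ c).Nonempty := by
  by_contra hemp
  have : Nonempty c := hc.to_subtype
  have h1 : K ⊆ ⋃ s : c, (s.1)ᶜ := by
    intro x hx
    by_contra hcon
    refine hemp ⟨x, hx, mem_sInter.2 fun s hs => ?_⟩
    by_contra hxs
    exact hcon (mem_iUnion.2 ⟨⟨s, hs⟩, hxs⟩)
  have h2 : Directed (· ⊆ ·) (fun s : c => (s.1)ᶜ) := by
    intro s t
    obtain ⟨w, hw, h3, h4⟩ := hdir s.1 s.2 t.1 t.2
    exact ⟨⟨w, hw⟩, compl_subset_compl.2 h3, compl_subset_compl.2 h4⟩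
  obtain ⟨s, hs⟩ := hK.elim_directed_cover _ (fun s : c => (hcl s.1 s.2).isOpen_compl) h1 h2
  obtain ⟨x, hx, hxs⟩ := hne s.1 s.2
  exact hs hx hxs

/-- minimal closed sets meeting all members of a family of compact sets -/
theorem exists_minimal {X : Type u} [TopologicalSpace X] (𝒦 : Set (Set X))
    (hK : ∀ K ∈ 𝒦, IsCompact K) (C₀ : Set X) (hC₀ : IsClosed C₀) (hne : ∀ K ∈ 𝒦, (K ∩ C₀).Nonempty) :
    ∃ C ⊆ C₀, IsClosed C ∧ (∀ K ∈ 𝒦, (K ∩ C).Nonempty) ∧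
      ∀ C' ⊆ C, IsClosed C' → (∀ K ∈ 𝒦, (K ∩ C').Nonempty) → C ⊆ C' := by
  obtain ⟨C, hC1, hC2⟩ := zorn_superset_nonempty {C : Set X | IsClosed C ∧ ∀ K ∈ 𝒦, (K ∩ C).Nonempty}
    (by
      intro c hc hchain hcne
      refine ⟨⋂₀ c, ⟨isClosed_sInter fun s hs => (hc hs).1, fun K hKm => ?_⟩, fun s hs => sInter_subset_of_mem hs⟩
      refine compact_filtered (hK K hKm) hcne (fun C hC => (hc hC).1) ?_ fun C hC => (hc hC).2 K hKm
      intro s hs t ht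
      rcases hchain.total hs ht with h | h
      · exact ⟨s, hs, subset_rfl, h⟩
      · exact ⟨t, ht, h, subset_rfl⟩) C₀ ⟨hC₀, hne⟩
  exact ⟨C, hC1, hC2.1.1, hC2.1.2, fun C' hC' hcl hm => hC2.2 ⟨hcl, hm⟩ hC'⟩

section

variable {P : Type u} [Preorder P] [TopologicalSpace P] [IsScott P univ]

theorem closed_iff {C : Set P} : IsClosed C ↔ IsLowerSet C ∧ DirSupClosed C :=
  IsScott.isClosed_iff_isLowerSet_and_dirSupClosed

theorem closed_Iic (z : P) : IsClosed (Iic z) :=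
  closed_iff.mpr ⟨isLowerSet_Iic z, fun _ hd _ _ _ ha => ha.2 hd⟩

theorem upper_of_open {U : Set P} (hU : IsOpen U) : IsUpperSet U := IsScott.isUpperSet_of_isOpen (D := univ) hU

/-- the upper closure of a compact set is compact -/
theorem compact_upper {K : Set P} (hK : IsCompact K) : IsCompact {z | ∃ x ∈ K, x ≤ z} := by
  refine isCompact_of_finite_subcover fun {ι} U hU hcov => ?_
  have h1 : K ⊆ ⋃ i, U i := fun x hx => hcov ⟨x, hx, le_rfl⟩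
  obtain ⟨t, ht⟩ := hK.elim_finite_subcover U hU h1
  refine ⟨t, ?_⟩
  rintro z ⟨x, hx, hxz⟩
  exact upper_of_open (isOpen_biUnion fun i _ => hU i) hxz (ht hx)

theorem saturated_upper {L : Set P} (hL : IsUpperSet L) : ∃ 𝒰 : Set (Set P), (∀ U ∈ 𝒰, IsOpen U) ∧ L = ⋂₀ 𝒰 := by
  refine ⟨{U | ∃ z ∉ L, U = (Iic z)ᶜ}, ?_, ?_⟩
  · rintro _ ⟨z, _, rfl⟩
    exact (closed_Iic z).isOpen_compl
  · apply Subset.antisymm
    · rintro x hx _ ⟨z, hz, rfl⟩ hxz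
      exact hz (hL hxz hx)
    · intro x hx
      by_contra hxL
      exact mem_sInter.mp hx _ ⟨x, hxL, rfl⟩ (mem_Iic.mpr le_rfl)

theorem upper_of_saturated {L : Set P} (hL : ∃ 𝒰 : Set (Set P), (∀ U ∈ 𝒰, IsOpen U) ∧ L = ⋂₀ 𝒰) : IsUpperSet L := by
  obtain ⟨𝒰, h1, rfl⟩ := hL
  intro x y hxy hx
  exact mem_sInter.mpr fun U hU => upper_of_open (h1 U hU) hxy (mem_sInter.mp hx U hU)

end

/-- the main step: a minimal closed set that meets all compact sets has a largest first coordinate -/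
theorem half {P : Type u} {Q : Type v} {X : Type*} [Preorder P] [TopologicalSpace P] [IsScott P univ]
    [Preorder Q] [TopologicalSpace Q] [IsScott Q univ] [Preorder X] [TopologicalSpace X] [IsScott X univ]
    {a : X → P} {b : X → Q} {m : P → Q → X} (ham : ∀ p q, a (m p q) = p) (hbm : ∀ p q, b (m p q) = q)
    (hle : ∀ x x', x ≤ x' ↔ a x ≤ a x' ∧ b x ≤ b x') (hwf : WellFiltered P) {𝒦 : Set (Set X)}
    (h𝒦 : 𝒦.Nonempty) (hdir : DirectedOn (· ⊇ ·) 𝒦) (hcomp : ∀ K ∈ 𝒦, IsCompact K) {D : Set X}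
    (hD : IsClosed D) (hmeet : ∀ K ∈ 𝒦, (K ∩ D).Nonempty)
    (hmin : ∀ C ⊆ D, IsClosed C → (∀ K ∈ 𝒦, (K ∩ C).Nonempty) → D ⊆ C) :
    ∃ p, (∀ x ∈ D, a x ≤ p) ∧ ∀ x ∈ D, m p (b x) ∈ D := by
  -- suprema in `X`
  have lubm1 : ∀ (d : Set P) (s : P) (q : Q), d.Nonempty → IsLUB d s → IsLUB ((fun p => m p q) '' d) (m s q) := by
    intro d s q hne hs
    constructor
    · rintro _ ⟨p, hp, rfl⟩
      rw [hle, ham, ham, hbm, hbm]
      exact ⟨hs.1 hp, le_rfl⟩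
    · intro x hx
      obtain ⟨p, hp⟩ := hne
      have h1 := (hle _ _).mp (hx ⟨p, hp, rfl⟩)
      rw [hle, ham, hbm]
      refine ⟨hs.2 fun p' hp' => ?_, ?_⟩
      · have := ((hle _ _).mp (hx ⟨p', hp', rfl⟩)).1
        rwa [ham] at this
      · rw [hbm] at h1
        exact h1.2
  have lubm2 : ∀ (d : Set Q) (s : Q) (p : P), d.Nonempty → IsLUB d s → IsLUB ((fun q => m p q) '' d) (m p s) := by
    intro d s q hne hs
    constructor
    · rintro _ ⟨p, hp, rfl⟩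
      rw [hle, ham, ham, hbm, hbm]
      exact ⟨le_rfl, hs.1 hp⟩
    · intro x hx
      obtain ⟨p, hp⟩ := hne
      have h1 := (hle _ _).mp (hx ⟨p, hp, rfl⟩)
      rw [hle, ham, hbm]
      refine ⟨?_, hs.2 fun p' hp' => ?_⟩
      · rw [ham] at h1
        exact h1.1
      · have := ((hle _ _).mp (hx ⟨p', hp', rfl⟩)).2
        rwa [hbm] at this
  have luba : ∀ (d : Set X) (s : X), d.Nonempty → IsLUB d s → IsLUB (a '' d) (a s) := by
    intro d s hne hs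
    constructor
    · rintro _ ⟨x, hx, rfl⟩
      exact ((hle _ _).mp (hs.1 hx)).1
    · intro u hu
      have h1 : m u (b s) ∈ upperBounds d := fun x hx => by
        rw [hle, ham, hbm]
        exact ⟨hu ⟨x, hx, rfl⟩, ((hle _ _).mp (hs.1 hx)).2⟩
      have h2 := ((hle _ _).mp (hs.2 h1)).1
      rwa [ham] at h2
  have lubb : ∀ (d : Set X) (s : X), d.Nonempty → IsLUB d s → IsLUB (b '' d) (b s) := by
    intro d s hne hs
    constructor
    · rintro _ ⟨x, hx, rfl⟩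
      exact ((hle _ _).mp (hs.1 hx)).2
    · intro u hu
      have h1 : m (a s) u ∈ upperBounds d := fun x hx => by
        rw [hle, ham, hbm]
        exact ⟨((hle _ _).mp (hs.1 hx)).1, hu ⟨x, hx, rfl⟩⟩
      have h2 := ((hle _ _).mp (hs.2 h1)).2
      rwa [hbm] at h2
  have dira : ∀ d : Set X, DirectedOn (· ≤ ·) d → DirectedOn (· ≤ ·) (a '' d) := by
    rintro d hd _ ⟨x, hx, rfl⟩ _ ⟨y, hy, rfl⟩
    obtain ⟨z, hz, h1, h2⟩ := hd x hx y hy
    exact ⟨a z, ⟨z, hz, rfl⟩, ((hle _ _).mp h1).1, ((hle _ _).mp h2).1⟩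
  have dirb : ∀ d : Set X, DirectedOn (· ≤ ·) d → DirectedOn (· ≤ ·) (b '' d) := by
    rintro d hd _ ⟨x, hx, rfl⟩ _ ⟨y, hy, rfl⟩
    obtain ⟨z, hz, h1, h2⟩ := hd x hx y hy
    exact ⟨b z, ⟨z, hz, rfl⟩, ((hle _ _).mp h1).2, ((hle _ _).mp h2).2⟩
  have preA : ∀ C : Set P, IsClosed C → IsClosed (a ⁻¹' C) := by
    intro C hC
    rw [closed_iff] at hC ⊢
    refine ⟨fun x y hyx hx => hC.1 ((hle _ _).mp hyx).1 hx, fun d hd hne hdd s hs => ?_⟩
    exact hC.2 (image_subset_iff.mpr hd) (hne.image a) (dira d hdd) (luba d s hne hs)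
  have preB : ∀ C : Set Q, IsClosed C → IsClosed (b ⁻¹' C) := by
    intro C hC
    rw [closed_iff] at hC ⊢
    refine ⟨fun x y hyx hx => hC.1 ((hle _ _).mp hyx).2 hx, fun d hd hne hdd s hs => ?_⟩
    exact hC.2 (image_subset_iff.mpr hd) (hne.image b) (dirb d hdd) (lubb d s hne hs)
  have hac : Continuous a := continuous_iff_isClosed.mpr preA
  obtain ⟨dl, ds⟩ := closed_iff.mp hD
  have hml : ∀ {p p' : P} {q q' : Q}, p ≤ p' → q ≤ q' → m p q ≤ m p' q' := by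
    intro p p' q q' h h'
    rw [hle, ham, ham, hbm, hbm]
    exact ⟨h, h'⟩
  -- slices
  have hslice : ∀ y : Q, IsClosed {p | m p y ∈ D} := by
    intro y
    rw [closed_iff]
    refine ⟨fun p p' h hp => dl ?_ hp, fun d hd hne hdd s hs => ?_⟩
    · rw [hle, ham, ham, hbm, hbm]
      exact ⟨h, le_rfl⟩
    · refine ds (image_subset_iff.mpr hd) (hne.image fun p => m p y) ?_ (lubm1 d s y hne hs)
      rintro _ ⟨p, hp, rfl⟩ _ ⟨p', hp', rfl⟩
      obtain ⟨w, hw, h1, h2⟩ := hdd p hp p' hp'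
      exact ⟨m w y, ⟨w, hw, rfl⟩, hml h1 le_rfl, hml h2 le_rfl⟩
  have hEclosed : ∀ L : Set P, IsCompact L → IsClosed {y : Q | ∃ z ∈ L, m z y ∈ D} := by
    intro L hL
    rw [closed_iff]
    refine ⟨?_, fun d hd hne hdd s hs => ?_⟩
    · rintro y y' h ⟨z, hz, hzy⟩
      refine ⟨z, hz, dl ?_ hzy⟩
      rw [hle, ham, ham, hbm, hbm]
      exact ⟨le_rfl, h⟩
    · obtain ⟨z, hz, hzc⟩ := compact_filtered hL (c := (fun y => {p | m p y ∈ D}) '' d) (hne.image _)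
        (by
          rintro _ ⟨y, _, rfl⟩
          exact hslice y)
        (by
          rintro _ ⟨y, hy, rfl⟩ _ ⟨y', hy', rfl⟩
          obtain ⟨w, hw, h1, h2⟩ := hdd y hy y' hy'
          refine ⟨_, ⟨w, hw, rfl⟩, fun p hp => dl ?_ hp, fun p hp => dl ?_ hp⟩
          · rw [hle, ham, ham, hbm, hbm]
            exact ⟨le_rfl, h1⟩
          · rw [hle, ham, ham, hbm, hbm]
            exact ⟨le_rfl, h2⟩)
        (by
          rintro _ ⟨y, hy, rfl⟩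
          obtain ⟨z, hz, hzy⟩ := hd hy
          exact ⟨z, hz, hzy⟩)
      refine ⟨z, hz, ds (d := (fun y => m z y) '' d) ?_ (hne.image _) ?_ (lubm2 d s z hne hs)⟩
      · rintro _ ⟨y, hy, rfl⟩
        exact mem_sInter.mp hzc _ ⟨y, hy, rfl⟩
      · rintro _ ⟨y, hy, rfl⟩ _ ⟨y', hy', rfl⟩
        obtain ⟨w, hw, h1, h2⟩ := hdd y hy y' hy'
        exact ⟨m z w, ⟨w, hw, rfl⟩, hml le_rfl h1, hml le_rfl h2⟩
  -- the compact sets in `P`
  let L : Set X → Set P := fun K => {z | ∃ x ∈ a '' (K ∩ D), x ≤ z}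
  have hLc : ∀ K ∈ 𝒦, IsCompact (L K) := fun K hK => compact_upper (((hcomp K hK).inter_right hD).image hac)
  have hLup : ∀ K, IsUpperSet (L K) := fun K z w hzw ⟨x, hx, hxz⟩ => ⟨x, hx, hxz.trans hzw⟩
  have hLmono : ∀ K K' : Set X, K ⊆ K' → L K ⊆ L K' := by
    rintro K K' h z ⟨_, ⟨x, hx, rfl⟩, hxz⟩
    exact ⟨_, ⟨x, ⟨h hx.1, hx.2⟩, rfl⟩, hxz⟩
  have hLne : (L '' 𝒦).Nonempty := h𝒦.image L
  have hLdir : DirectedOn (· ⊇ ·) (L '' 𝒦) := by
    rintro _ ⟨K, hK, rfl⟩ _ ⟨K', hK', rfl⟩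
    obtain ⟨W, hW, h1, h2⟩ := hdir K hK K' hK'
    exact ⟨_, ⟨W, hW, rfl⟩, hLmono _ _ h1, hLmono _ _ h2⟩
  have hwfL : ∀ U : Set P, IsOpen U → ⋂₀ (L '' 𝒦) ⊆ U → ∃ K ∈ 𝒦, L K ⊆ U := by
    intro U hU h
    obtain ⟨_, ⟨K, hK, rfl⟩, hKU⟩ := hwf.2 (L '' 𝒦) hLne hLdir (by
      rintro _ ⟨K, hK, rfl⟩
      exact ⟨hLc K hK, saturated_upper (hLup K)⟩) U hU h
    exact ⟨K, hK, hKU⟩
  -- step 1
  have step1 : ∀ z ∈ ⋂₀ (L '' 𝒦), ∀ x ∈ D, a x ≤ z := by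
    intro z hz
    refine fun x hx => (hmin (D ∩ a ⁻¹' Iic z) inter_subset_left (hD.inter (preA _ (closed_Iic z))) ?_ hx).2
    intro K hK
    obtain ⟨_, ⟨x, hx, rfl⟩, hxz⟩ := mem_sInter.mp hz (L K) ⟨K, hK, rfl⟩
    exact ⟨x, hx.1, hx.2, hxz⟩
  -- the intersection is compact
  have hLL : IsCompact (⋂₀ (L '' 𝒦)) := by
    refine isCompact_of_finite_subcover fun {ι} U hU hcov => ?_
    obtain ⟨K, hK, hKU⟩ := hwfL _ (isOpen_iUnion hU) hcov
    obtain ⟨t, ht⟩ := (hLc K hK).elim_finite_subcover U hU hKU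
    exact ⟨t, (sInter_subset_of_mem (show L K ∈ L '' 𝒦 from ⟨K, hK, rfl⟩)).trans ht⟩
  -- step 3
  have step3 : ∀ x ∈ D, ∃ z ∈ ⋂₀ (L '' 𝒦), m z (b x) ∈ D := by
    refine fun x hx => (hmin (D ∩ b ⁻¹' {y : Q | ∃ z ∈ ⋂₀ (L '' 𝒦), m z y ∈ D}) inter_subset_left
      (hD.inter (preB _ (hEclosed _ hLL))) ?_ hx).2
    intro K hK
    by_contra hcon
    have hno : ∀ x ∈ K ∩ D, ∃ K' ∈ 𝒦, ∀ z ∈ L K', m z (b x) ∉ D := by
      intro x hx
      have h1 : ⋂₀ (L '' 𝒦) ⊆ {p | m p (b x) ∈ D}ᶜ := fun z hz hzx => hcon ⟨x, hx.1, hx.2, z, hz, hzx⟩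
      obtain ⟨K', hK', h2⟩ := hwfL _ (hslice (b x)).isOpen_compl h1
      exact ⟨K', hK', fun z hz hzx => h2 hz hzx⟩
    have : Nonempty 𝒦 := ⟨⟨K, hK⟩⟩
    obtain ⟨K', hK'⟩ := ((hcomp K hK).inter_right hD).elim_directed_cover
      (fun K' : 𝒦 => (b ⁻¹' {y : Q | ∃ z ∈ L K'.1, m z y ∈ D})ᶜ)
      (fun K' => (preB _ (hEclosed _ (hLc K'.1 K'.2))).isOpen_compl)
      (by
        intro x hx
        obtain ⟨K', hK', h⟩ := hno x hx
        refine mem_iUnion.mpr ⟨⟨K', hK'⟩, ?_⟩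
        rintro ⟨z, hz, hzx⟩
        exact h z hz hzx)
      (by
        intro K₁ K₂
        obtain ⟨W, hW, h1, h2⟩ := hdir K₁.1 K₁.2 K₂.1 K₂.2
        refine ⟨⟨W, hW⟩, fun x hx => ?_, fun x hx => ?_⟩
        · rintro ⟨z, hz, hzx⟩
          exact hx ⟨z, hLmono _ _ h1 hz, hzx⟩
        · rintro ⟨z, hz, hzx⟩
          exact hx ⟨z, hLmono _ _ h2 hz, hzx⟩)
    obtain ⟨W, hW, h1, h2⟩ := hdir K hK K'.1 K'.2
    obtain ⟨x, hx, hxD⟩ := hmeet W hW
    refine hK' ⟨h1 hx, hxD⟩ ⟨a x, ⟨a x, ⟨x, ⟨h2 hx, hxD⟩, rfl⟩, le_rfl⟩, dl ?_ hxD⟩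
    rw [hle, ham, hbm]
    exact ⟨le_rfl, le_rfl⟩
  -- conclusion
  obtain ⟨K₀, hK₀⟩ := h𝒦
  obtain ⟨x₀, _, hx₀⟩ := hmeet K₀ hK₀
  obtain ⟨p, hp, hpD⟩ := step3 x₀ hx₀
  refine ⟨p, step1 p hp, fun x hx => ?_⟩
  obtain ⟨z, hz, hzD⟩ := step3 x hx
  have h1 : p ≤ z := by
    have := step1 z hz _ hpD
    rwa [ham] at this
  refine dl ?_ hzD
  rw [hle, ham, ham, hbm, hbm]
  exact ⟨h1, le_rfl⟩

theorem result (P : Type u) (Q : Type v) [PartialOrder P] [PartialOrder Q]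
    (hP : WellFiltered (WithScott P)) (hQ : WellFiltered (WithScott Q)) :
    WellFiltered (WithScott (P × Q)) := by
  let a : WithScott (P × Q) → WithScott P := fun x => (WithScott.ofScott x).1
  let b : WithScott (P × Q) → WithScott Q := fun x => (WithScott.ofScott x).2
  let m : WithScott P → WithScott Q → WithScott (P × Q) := fun p q => WithScott.toScott (WithScott.ofScott p, WithScott.ofScott q)
  let _ : PartialOrder (WithScott (P × Q)) := (inferInstance : PartialOrder (P × Q))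
  refine ⟨inferInstance, fun 𝒦 h𝒦 hdir hK U hU hsub => ?_⟩
  by_contra hcon
  push Not at hcon
  obtain ⟨D, hDU, hD, hmeet, hmin⟩ := exists_minimal 𝒦 (fun K h => (hK K h).1) Uᶜ hU.isClosed_compl (by
    intro K h
    obtain ⟨x, hx, hxU⟩ := not_subset.mp (hcon K h)
    exact ⟨x, hx, hxU⟩)
  obtain ⟨p, hp1, hp2⟩ := half (P := WithScott P) (Q := WithScott Q) (X := WithScott (P × Q)) (a := a) (b := b) (m := m)
    (fun _ _ => rfl) (fun _ _ => rfl) (fun _ _ => Iff.rfl) hP h𝒦 hdir (fun K h => (hK K h).1) hD hmeet hmin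
  obtain ⟨q, hq1, hq2⟩ := half (P := WithScott Q) (Q := WithScott P) (X := WithScott (P × Q)) (a := b) (b := a)
    (m := fun q p => m p q)
    (fun _ _ => rfl) (fun _ _ => rfl) (fun _ _ => and_comm) hQ h𝒦 hdir (fun K h => (hK K h).1) hD hmeet hmin
  obtain ⟨K₀, hK₀⟩ := h𝒦
  obtain ⟨x₀, _, hx₀⟩ := hmeet K₀ hK₀
  have h1 : m p (b x₀) ∈ D := hp2 x₀ hx₀
  have h2 : m p q ∈ D := hq2 _ h1
  apply hDU h2
  apply hsub
  refine mem_sInter.mpr fun K hKm => ?_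
  obtain ⟨x, hx, hxD⟩ := hmeet K hKm
  exact upper_of_saturated (hK K hKm).2 (show x ≤ m p q from ⟨hp1 x hxD, hq1 x hxD⟩) hx

end Pool.Agent.Results.MP_70096d_gt.ScottProduct
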